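import Pool.Agent.N71.PS.DStubs3
import Pool.Agent.N232.PS.RA

/-!
# Unobstructed discriminants are admissible (D_RB)
-/

set_option autoImplicit false

namespace Pool.Agent.N71.PS.RB

open Finset Filter Pool.Agent.H38R2.CG Pool.Agent.H38R2.CG2
open scoped Classical
open Pool.Agent.N71.PS.RA232 (char_prod sq8)

/-- characters modulo 8 which are trivial at 5 come from characters modulo 4 -/
theorem from4 (ψ : DirichletCharacter ℂ 8) (h5 : ψ 5 = 1) :
    ∃ φ : DirichletCharacter ℂ 4, φ ^ 2 = 1 ∧ (φ = 1 → ψ = 1) ∧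
      ∀ n : ℕ, n.Coprime 8 → φ (n : ZMod 4) = ψ (n : ZMod 8) := by
  have h48 : 4 ∣ 8 := by norm_num
  have hF : ψ.FactorsThrough 4 := by
    rw [DirichletCharacter.factorsThrough_iff_ker_unitsMap h48]
    intro u hu
    rw [MonoidHom.mem_ker] at hu ⊢
    have h1 : (u : ZMod 8) = 1 ∨ (u : ZMod 8) = 5 := by
      have h2 : ZMod.castHom h48 (ZMod 4) (u : ZMod 8) = 1 := by
        have := congrArg (fun v : (ZMod 4)ˣ => (v : ZMod 4)) hu
        exact this
      have h3 : ∀ w : ZMod 8, ZMod.castHom (by norm_num : 4 ∣ 8) (ZMod 4) w = 1 →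
          w = 1 ∨ w = 5 := by decide
      exact h3 _ h2
    ext
    rw [MulChar.coe_toUnitHom]
    rcases h1 with h1 | h1
    · rw [h1]; simp
    · rw [h1, h5]; simp
  obtain ⟨hd, φ, hφ⟩ := hF
  have happ : ∀ n : ℕ, n.Coprime 8 → φ (n : ZMod 4) = ψ (n : ZMod 8) := by
    intro n hn
    obtain ⟨u, hu⟩ : IsUnit ((n : ℕ) : ZMod 8) := (ZMod.isUnit_iff_coprime n 8).mpr hn
    rw [hφ, ← hu, DirichletCharacter.changeLevel_eq_cast_of_dvd, hu, ZMod.cast_natCast hd]
  refine ⟨φ, ?_, ?_, happ⟩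
  · ext u
    obtain ⟨n, hn⟩ : ∃ n : ℕ, (n : ZMod 4) = (u : ZMod 4) :=
      ⟨(u : ZMod 4).val, ZMod.natCast_zmod_val _⟩
    have hcop : n.Coprime 4 := by
      rw [← ZMod.isUnit_iff_coprime, hn]; exact u.isUnit
    have hcop8 : n.Coprime 8 := by
      have e : (8 : ℕ) = 2 ^ 3 := by norm_num
      have e4 : (4 : ℕ) = 2 ^ 2 := by norm_num
      rw [e4] at hcop
      rw [e]
      exact Nat.Coprime.pow_right 3 (Nat.Coprime.coprime_dvd_right (dvd_pow_self 2 two_ne_zero) hcop)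
    have h1 : ψ (n : ZMod 8) ^ 2 = 1 := by
      have := congrArg (fun c : DirichletCharacter ℂ 8 => c (n : ZMod 8)) (sq8 ψ)
      simp only [MulChar.pow_apply' ψ (two_ne_zero)] at this
      rw [this]
      exact MulChar.one_apply ((ZMod.isUnit_iff_coprime n 8).mpr hcop8)
    rw [MulChar.pow_apply' φ two_ne_zero, ← hn, happ n hcop8, h1,
      MulChar.one_apply ((ZMod.isUnit_iff_coprime n 4).mpr hcop)]
  · intro h
    rw [hφ, h, DirichletCharacter.changeLevel_one]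

variable [PSet]

theorem D_RB_true : D_RB := by
  intro z D hz hD hR ψ f hfr hfz hψ1 h12 h8 hne
  -- properties of `f`
  have hP0 : (∏ l ∈ (Finset.Icc 3 z).filter Nat.Prime, l) ≠ 0 := by
    rw [Finset.prod_ne_zero_iff]
    intro l hl
    exact (Finset.mem_filter.1 hl).2.ne_zero
  have hf1 : 1 ≤ f := Nat.one_le_iff_ne_zero.2 (ne_zero_of_dvd_ne_zero hP0 hfz)
  have hsq : Squarefree (∏ l ∈ (Finset.Icc 3 z).filter Nat.Prime, l) := by
    refine Finset.squarefree_prod_of_pairwise_isCoprime (fun a ha b hb hab => ?_) fun l hl => ?_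
    · exact Nat.coprime_iff_isRelPrime.1
        ((Nat.coprime_primes (Finset.mem_filter.1 ha).2 (Finset.mem_filter.1 hb).2).2 hab)
    · exact (Finset.mem_filter.1 hl).2.prime.squarefree
  have hs : Squarefree f := hsq.squarefree_of_dvd hfz
  have hf2 : f.Coprime 2 := by
    refine Nat.Coprime.coprime_dvd_left hfz ?_
    refine Nat.Coprime.prod_left fun l hl => ?_
    have h3 := Finset.mem_filter.1 hl
    have h4 := (Finset.mem_Icc.1 h3.1).1
    exact (Nat.coprime_primes h3.2 Nat.prime_two).2 (by omega)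
  have h16 : 16 ∣ Qz z := by unfold Qz; exact dvd_mul_right _ _
  have hfQ : f ∣ Qz z := by
    refine hfz.trans ?_
    unfold Qz
    refine Dvd.dvd.mul_left ?_ _
    rw [Finset.prod_pow]
    exact dvd_pow_self _ two_ne_zero
  have hfD : f ∣ D := by
    have h3 := Nat.div_add_mod D (Qz z)
    rw [← h3]
    exact dvd_add (Dvd.dvd.mul_right hfQ _) hfr
  have hmod : D % Qz z % 16 = D % 16 := Nat.mod_mod_of_dvd D h16
  have key : ∀ (M : ℕ) (φ : DirichletCharacter ℂ M), 1 ≤ M → M ∣ 8 → M ∣ D →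
      φ ^ 2 = 1 → ¬ (φ = 1 ∧ f = 1) → (∀ n : ℕ, n.Coprime 8 → φ (n : ZMod M) = ψ (n : ZMod 8)) →
      ∃ β : ℝ, β < 1 ∧ ∃ y0 : ℕ, ∀ y ≥ y0,
        ‖∑ p ∈ PP y, ψ (p : ZMod 8) * ((jacobiSym (p : ℤ) f : ℤ) : ℂ)‖ ≤ β * (PP y).card := by
    intro M φ hM hM8 hMD hφ2 hφ hφψ
    have h5 : f.Coprime 8 := by
      have : (8 : ℕ) = 2 ^ 3 := by norm_num
      rw [this]
      exact Nat.Coprime.pow_right 3 hf2
    have hfM : f.Coprime M := Nat.Coprime.coprime_dvd_right hM8 h5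
    have hc : f.Coprime (2 * M) := Nat.Coprime.mul_right hf2 hfM
    obtain ⟨χ, hχ1, hχ2, happ⟩ := char_prod M f hM hf1 hs hc φ hφ2 hφ
    obtain ⟨β, hβ, y0, hy0⟩ := hR (M * f) χ (Nat.one_le_iff_ne_zero.2
      (Nat.mul_ne_zero (by omega) (by omega))) (hfM.symm.mul_dvd_of_dvd_of_dvd hMD hfD) hχ2 hχ1
    refine ⟨β, hβ, max y0 (8 * f), fun y hy => ?_⟩
    have h6 := hy0 y (le_trans (le_max_left _ _) hy)
    rw [← PP_eq] at h6
    have h7 : ∑ p ∈ PP y, ψ (p : ZMod 8) * ((jacobiSym (p : ℤ) f : ℤ) : ℂ) =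
        ∑ p ∈ PP y, χ (p : ZMod (M * f)) := by
      refine Finset.sum_congr rfl fun p hp => ?_
      obtain ⟨⟨h8, -⟩, hpp, -⟩ := mem_PP.1 hp
      have h9 : 8 * f < p := lt_of_le_of_lt (le_trans (le_max_right _ _) hy) h8
      have hp8f : p.Coprime (8 * f) := by
        rw [Nat.Prime.coprime_iff_not_dvd hpp]
        intro hd
        have := Nat.le_of_dvd (by omega) hd
        omega
      have hp8 : p.Coprime 8 := Nat.Coprime.coprime_dvd_right (dvd_mul_right 8 f) hp8f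
      have hpMf : p.Coprime (M * f) :=
        Nat.Coprime.coprime_dvd_right (Nat.mul_dvd_mul_right hM8 f) hp8f
      rw [happ p hpMf, hφψ p hp8]
    rw [h7]
    exact h6
  rcases hD.2 with ⟨h4, -⟩ | ⟨m, hm, hm4, -⟩
  · -- odd
    have hψ : ψ = 1 := hψ1 (by omega)
    have hf1' : f ≠ 1 := fun h => hne ⟨hψ, h⟩
    refine key 1 1 le_rfl (one_dvd _) (one_dvd _) (one_pow 2) (fun h => hf1' h.2) fun n hn => ?_
    rw [hψ, MulChar.one_apply ((ZMod.isUnit_iff_coprime n 8).2 hn),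
      MulChar.one_apply ((ZMod.isUnit_iff_coprime n 1).2 (Nat.coprime_one_right n))]
  · rcases hm4 with hm4 | hm4
    · -- 8 divides D
      exact key 8 ψ (by norm_num) dvd_rfl (by omega) (sq8 ψ) hne fun n _ => rfl
    · obtain ⟨φ, hφ2, hφ1, happ⟩ := from4 ψ (h12 (by omega))
      exact key 4 φ (by norm_num) (by norm_num) (by omega) hφ2 (fun h => hne ⟨hφ1 h.1, h.2⟩) happ

end Pool.Agent.N71.PS.RB
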